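import Pool.Agent.Q82.BC.Stm
import Pool.Agent.Q129.BB_KB

/-! # BC: bounds of the kernel -/

set_option autoImplicit false

open MeasureTheory Filter Topology Set
open Pool.Agent.Q82.BB

namespace Pool.Agent.Q256.BC

open Pool.Agent.Q82.BC

theorem lam_le {ξ : ℝ} : lam ξ ≤ ξ ^ 2 := by
  unfold lam
  apply Real.sqrt_le_iff.2
  refine ⟨sq_nonneg _, ?_⟩
  unfold mu
  nlinarith [sq_nonneg ξ]

/-- a bound of the terms -/
theorem base_bdd (a c : ℕ) (h : a ≤ 2 * c) (ξ r : ℝ) (hξ : 3 / 2 ≤ |ξ|) (hr : 0 ≤ r) :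
    |ξ| ^ a * r ^ c * Real.exp (-(lam ξ * r)) ≤
      (c.factorial / (1 / 4 : ℝ) ^ c) * Real.exp (-(ξ ^ 2 * r / 4)) := by
  have h1 : Real.exp (-(lam ξ * r)) ≤
      Real.exp (-(1 / 4 * (ξ ^ 2 * r))) * Real.exp (-(ξ ^ 2 * r / 4)) := by
    rw [← Real.exp_add]
    apply Real.exp_le_exp.2
    have := mul_le_mul_of_nonneg_right (kb_lam_low hξ) hr
    linarith
  have h2 : |ξ| ^ a * r ^ c ≤ (ξ ^ 2 * r) ^ c := by
    have h3 : |ξ| ^ a ≤ |ξ| ^ (2 * c) := pow_le_pow_right₀ (by linarith) h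
    calc |ξ| ^ a * r ^ c ≤ |ξ| ^ (2 * c) * r ^ c := by gcongr
      _ = (ξ ^ 2 * r) ^ c := by rw [pow_mul, sq_abs, mul_pow]
  have h4 := kb_pow_exp (c := 1 / 4) (by norm_num) c (ξ ^ 2 * r) (by positivity)
  calc |ξ| ^ a * r ^ c * Real.exp (-(lam ξ * r)) ≤
      (ξ ^ 2 * r) ^ c * (Real.exp (-(1 / 4 * (ξ ^ 2 * r))) * Real.exp (-(ξ ^ 2 * r / 4))) := by
        gcongr
    _ = ((ξ ^ 2 * r) ^ c * Real.exp (-(1 / 4 * (ξ ^ 2 * r)))) * Real.exp (-(ξ ^ 2 * r / 4)) := by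
        ring
    _ ≤ _ := by gcongr

/-- the derivative in `r` costs a factor `ξ²` -/
theorem kbC_rderiv {f : ℝ → ℝ → ℝ} (h : KbC f) : ∃ f' : ℝ → ℝ → ℝ,
    (∀ ξ r, HasDerivAt (fun r => f ξ r) (f' ξ r) r) ∧
    ∃ C, 0 ≤ C ∧ ∀ ξ r, 3 / 2 ≤ |ξ| → 0 ≤ r →
      |f' ξ r| ≤ C * ξ ^ 2 * Real.exp (-(ξ ^ 2 * r / 4)) := by
  induction h with
  | @base b hb a c h =>
    obtain ⟨B, hB0, hB⟩ := kbB_bdd hb
    refine ⟨fun ξ r => b ξ * ξ ^ a * (c * r ^ (c - 1)) * Real.exp (-(lam ξ * r)) +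
      b ξ * ξ ^ a * r ^ c * (Real.exp (-(lam ξ * r)) * (-(lam ξ))), fun ξ r => ?_, ?_⟩
    · have e1 : HasDerivAt (fun r : ℝ => Real.exp (-(lam ξ * r)))
          (Real.exp (-(lam ξ * r)) * (-(lam ξ))) r := by
        have := (((hasDerivAt_id r).const_mul (lam ξ)).fun_neg).exp
        simpa using this
      have e2 : HasDerivAt (fun r : ℝ => b ξ * ξ ^ a * r ^ c) (b ξ * ξ ^ a * (c * r ^ (c - 1))) r :=
        (hasDerivAt_pow c r).const_mul (b ξ * ξ ^ a)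
      exact e2.fun_mul e1
    · refine ⟨B * (c * ((c - 1).factorial / (1 / 4 : ℝ) ^ (c - 1))) +
        B * (c.factorial / (1 / 4 : ℝ) ^ c), by positivity, fun ξ r hξ hr => ?_⟩
      have hE : 0 < Real.exp (-(ξ ^ 2 * r / 4)) := Real.exp_pos _
      have hE1 : 0 < Real.exp (-(lam ξ * r)) := Real.exp_pos _
      have hbξ := hB ξ hξ
      have t1 : |b ξ * ξ ^ a * (c * r ^ (c - 1)) * Real.exp (-(lam ξ * r))| ≤
          B * (c * ((c - 1).factorial / (1 / 4 : ℝ) ^ (c - 1))) * ξ ^ 2 *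
            Real.exp (-(ξ ^ 2 * r / 4)) := by
        rcases Nat.eq_zero_or_pos c with hc | hc
        · subst hc
          simp
        · have h5 := base_bdd (2 * (c - 1)) (c - 1) le_rfl ξ r hξ hr
          have h6 : |ξ| ^ a ≤ ξ ^ 2 * |ξ| ^ (2 * (c - 1)) := by
            have h7 : |ξ| ^ a ≤ |ξ| ^ (2 * c) := pow_le_pow_right₀ (by linarith) h
            have h8 : |ξ| ^ (2 * c) = ξ ^ 2 * |ξ| ^ (2 * (c - 1)) := by
              rw [← sq_abs, ← pow_add]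
              congr 1
              omega
            linarith
          rw [abs_mul, abs_mul, abs_mul, abs_mul, abs_pow, abs_pow, Real.abs_exp, abs_of_nonneg hr,
            abs_of_nonneg (Nat.cast_nonneg c : (0 : ℝ) ≤ (c : ℝ))]
          calc |b ξ| * |ξ| ^ a * (c * r ^ (c - 1)) * Real.exp (-(lam ξ * r)) ≤
              B * (ξ ^ 2 * |ξ| ^ (2 * (c - 1))) * (c * r ^ (c - 1)) * Real.exp (-(lam ξ * r)) := by
                gcongr
            _ = B * c * ξ ^ 2 * (|ξ| ^ (2 * (c - 1)) * r ^ (c - 1) * Real.exp (-(lam ξ * r))) := by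
                ring
            _ ≤ B * c * ξ ^ 2 * (((c - 1).factorial / (1 / 4 : ℝ) ^ (c - 1)) *
                Real.exp (-(ξ ^ 2 * r / 4))) := by gcongr
            _ = _ := by ring
      have t2 : |b ξ * ξ ^ a * r ^ c * (Real.exp (-(lam ξ * r)) * (-(lam ξ)))| ≤
          B * (c.factorial / (1 / 4 : ℝ) ^ c) * ξ ^ 2 * Real.exp (-(ξ ^ 2 * r / 4)) := by
        have h5 := base_bdd a c h ξ r hξ hr
        rw [abs_mul, abs_mul, abs_mul, abs_mul, abs_pow, abs_pow, Real.abs_exp, abs_of_nonneg hr,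
          abs_neg, abs_of_pos (kb_lam_pos hξ)]
        have hl := kb_lam_pos hξ
        have hl2 := lam_le (ξ := ξ)
        calc |b ξ| * |ξ| ^ a * r ^ c * (Real.exp (-(lam ξ * r)) * lam ξ) =
            |b ξ| * lam ξ * (|ξ| ^ a * r ^ c * Real.exp (-(lam ξ * r))) := by ring
          _ ≤ B * ξ ^ 2 * ((c.factorial / (1 / 4 : ℝ) ^ c) * Real.exp (-(ξ ^ 2 * r / 4))) := by
              gcongr
          _ = _ := by ring
      calc _ ≤ _ := abs_add_le _ _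
        _ ≤ _ := add_le_add t1 t2
        _ = _ := by ring
  | add _ _ h1 h2 =>
    obtain ⟨f', hf, C, hC0, hC⟩ := h1
    obtain ⟨g', hg, D, hD0, hD⟩ := h2
    refine ⟨fun ξ r => f' ξ r + g' ξ r, fun ξ r => (hf ξ r).fun_add (hg ξ r), C + D, by positivity,
      fun ξ r h hr => ?_⟩
    calc _ ≤ _ := abs_add_le _ _
      _ ≤ _ := add_le_add (hC ξ r h hr) (hD ξ r h hr)
      _ = _ := by ring

theorem kb_1_diff (i : ℕ) : ∃ C, 0 ≤ C ∧ ∀ ξ r1 r2, 0 ≤ r1 → r1 ≤ r2 →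
    |iteratedDeriv i (fun ξ => kb_1 ξ r1) ξ - iteratedDeriv i (fun ξ => kb_1 ξ r2) ξ| ≤
      C * ξ ^ 2 * (r2 - r1) * Real.exp (-(ξ ^ 2 * r1 / 4)) := by
  obtain ⟨f, hf, hf2⟩ := kb_1_iter i
  obtain ⟨f', hd, C, hC0, hC⟩ := kbC_rderiv hf
  refine ⟨C, hC0, fun ξ r1 r2 h1 h12 => ?_⟩
  rcases lt_or_ge |ξ| 2 with h | h
  · rw [kb_zero' (fun ξ => kb_1 ξ r1) (fun x hx => kb_1_zero hx r1) i ξ h,
      kb_zero' (fun ξ => kb_1 ξ r2) (fun x hx => kb_1_zero hx r2) i ξ h, sub_zero, abs_zero]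
    have : 0 ≤ r2 - r1 := by linarith
    positivity
  · rw [hf2 r1 ξ (by linarith), hf2 r2 ξ (by linarith)]
    have h3 := (convex_Icc r1 r2).norm_image_sub_le_of_norm_hasDerivWithin_le
      (f := fun r => f ξ r) (f' := fun r => f' ξ r) (C := C * ξ ^ 2 * Real.exp (-(ξ ^ 2 * r1 / 4)))
      (fun x _ => (hd ξ x).hasDerivWithinAt) (fun x hx => by
        rw [Real.norm_eq_abs]
        refine (hC ξ x (by linarith) (h1.trans hx.1)).trans ?_
        have : ξ ^ 2 * r1 ≤ ξ ^ 2 * x := mul_le_mul_of_nonneg_left hx.1 (sq_nonneg _)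
        have h4 : Real.exp (-(ξ ^ 2 * x / 4)) ≤ Real.exp (-(ξ ^ 2 * r1 / 4)) :=
          Real.exp_le_exp.2 (by linarith)
        gcongr) (right_mem_Icc.2 h12) (left_mem_Icc.2 h12)
    rw [Real.norm_eq_abs, Real.norm_eq_abs, abs_sub_comm r1 r2, abs_of_nonneg (by linarith : 0 ≤ r2 - r1)] at h3
    calc _ ≤ _ := h3
      _ = _ := by ring

theorem kb_2_lip {sh : ℝ → ℝ → ℝ} (hsh : ∀ n : ℕ, ContDiff ℝ n (fun q : ℝ × ℝ => sh q.1 q.2))
    (h0 : ∀ m, sh m 0 = 0) (T : ℝ) (i : ℕ) : ∃ M, 0 ≤ M ∧ ∀ ξ r, |ξ| ≤ 3 → 0 ≤ r → r ≤ T →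
    |iteratedDeriv i (fun ξ => kb_2 sh ξ r) ξ| ≤ M * r := by
  have c2 := kb_joint i _ (kb_2_smooth hsh) (1 : ℕ)
  set g : ℝ × ℝ → ℝ := fun q : ℝ × ℝ => iteratedDeriv i (fun ξ => kb_2 sh ξ q.2) q.1 with hg
  have c2' : ContDiff ℝ 1 g := by exact_mod_cast c2
  have hc : Continuous (fun q : ℝ × ℝ => fderiv ℝ g q (0, 1)) :=
    (c2'.continuous_fderiv (by norm_num)).clm_apply continuous_const
  obtain ⟨M, hM⟩ := ((isCompact_Icc (a := (-3 : ℝ)) (b := 3)).prod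
    (isCompact_Icc (a := (0 : ℝ)) (b := T))).exists_bound_of_continuousOn hc.continuousOn
  refine ⟨max M 0, le_max_right _ _, fun ξ r hξ hr hrT => ?_⟩
  have hd : ∀ x, HasDerivAt (fun r => g (ξ, r)) (fderiv ℝ g (ξ, x) (0, 1)) x := by
    intro x
    have h4 : HasFDerivAt g (fderiv ℝ g (ξ, x)) (ξ, x) :=
      (c2'.differentiable (by norm_num) (ξ, x)).hasFDerivAt
    have h5 : HasDerivAt (fun r : ℝ => (ξ, r)) ((0 : ℝ), (1 : ℝ)) x :=
      (hasDerivAt_const x ξ).prodMk (hasDerivAt_id x)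
    exact h4.comp_hasDerivAt x h5
  have h3 := (convex_Icc 0 r).norm_image_sub_le_of_norm_hasDerivWithin_le
      (f := fun r => g (ξ, r)) (f' := fun x => fderiv ℝ g (ξ, x) (0, 1)) (C := max M 0)
      (fun x _ => (hd x).hasDerivWithinAt) (fun x hx =>
        (hM (ξ, x) ⟨abs_le.1 hξ, ⟨hx.1, hx.2.trans hrT⟩⟩).trans (le_max_left _ _))
      (left_mem_Icc.2 hr) (right_mem_Icc.2 hr)
  have h6 : g (ξ, 0) = 0 := by
    have : (fun ξ => kb_2 sh ξ 0) = fun _ => (0 : ℝ) := by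
      funext x
      unfold kb_2
      rw [h0]
      simp
    show iteratedDeriv i (fun ξ => kb_2 sh ξ 0) ξ = 0
    rw [this]
    simp
  rw [Real.norm_eq_abs, Real.norm_eq_abs, h6, sub_zero, sub_zero, abs_of_nonneg hr] at h3
  exact h3

theorem kap2_eq (sh : ℝ → ℝ → ℝ) (ξ τ s : ℝ) :
    kap2 sh ξ τ s = kb_1 ξ |τ - s| - kb_1 ξ (τ + s) + kb_2 sh ξ (max (s - τ) 0) := by
  unfold kap2 kb_1 kb_2
  ring

theorem kb2 : S_KB2 := by
  intro sh ch hs T hT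
  have s1 : ∀ n : ℕ, ContDiff ℝ n (fun q : ℝ × ℝ => kb_1 q.1 q.2) := kb_1_smooth
  have s2 : ∀ n : ℕ, ContDiff ℝ n (fun q : ℝ × ℝ => kb_2 sh q.1 q.2) := kb_2_smooth hs.1
  have p1 : ∀ (r : ℝ) (n : ℕ), ContDiff ℝ n (fun ξ => kb_1 ξ r) := fun r n =>
    (s1 n).comp (contDiff_id.prodMk contDiff_const)
  have p2 : ∀ (r : ℝ) (n : ℕ), ContDiff ℝ n (fun ξ => kb_2 sh ξ r) := fun r n =>
    (s2 n).comp (contDiff_id.prodMk contDiff_const)
  have hfun : ∀ τ s, (fun ξ => kap2 sh ξ τ s) = ((fun ξ => kb_1 ξ |τ - s|) - fun ξ => kb_1 ξ (τ + s)) +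
      fun ξ => kb_2 sh ξ (max (s - τ) 0) := by
    intro τ s
    funext ξ
    exact kap2_eq sh ξ τ s
  have hder : ∀ (i : ℕ) (ξ τ s : ℝ), iteratedDeriv i (fun ξ => kap2 sh ξ τ s) ξ =
      iteratedDeriv i (fun ξ => kb_1 ξ |τ - s|) ξ - iteratedDeriv i (fun ξ => kb_1 ξ (τ + s)) ξ +
        iteratedDeriv i (fun ξ => kb_2 sh ξ (max (s - τ) 0)) ξ := by
    intro i ξ τ s
    have q1 : ContDiffAt ℝ i ((fun ξ => kb_1 ξ |τ - s|) - fun ξ => kb_1 ξ (τ + s)) ξ :=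
      (p1 _ i).contDiffAt.sub (p1 _ i).contDiffAt
    rw [hfun, iteratedDeriv_add q1 (p2 _ i).contDiffAt,
      iteratedDeriv_sub (p1 _ i).contDiffAt (p1 _ i).contDiffAt]
  refine ⟨?_, ?_, ?_, ?_⟩
  · intro τ s n
    rw [hfun]
    exact ((p1 _ n).sub (p1 _ n)).add (p2 _ n)
  · intro i
    have c1 : Continuous (fun q : ℝ × ℝ => iteratedDeriv i (fun ξ => kb_1 ξ q.2) q.1) :=
      (kb_joint i _ s1 0).continuous
    have c2 : Continuous (fun q : ℝ × ℝ => iteratedDeriv i (fun ξ => kb_2 sh ξ q.2) q.1) :=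
      (kb_joint i _ s2 0).continuous
    have h1 : (fun q : ℝ × ℝ × ℝ => iteratedDeriv i (fun ξ => kap2 sh ξ q.2.1 q.2.2) q.1) =
        fun q : ℝ × ℝ × ℝ =>
        iteratedDeriv i (fun ξ => kb_1 ξ |q.2.1 - q.2.2|) q.1 -
          iteratedDeriv i (fun ξ => kb_1 ξ (q.2.1 + q.2.2)) q.1 +
          iteratedDeriv i (fun ξ => kb_2 sh ξ (max (q.2.2 - q.2.1) 0)) q.1 := by
      funext q
      exact hder i _ _ _
    rw [h1]
    have m1 : Continuous (fun q : ℝ × ℝ × ℝ => (q.1, |q.2.1 - q.2.2|)) := by fun_prop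
    have m3 : Continuous (fun q : ℝ × ℝ × ℝ => (q.1, q.2.1 + q.2.2)) := by fun_prop
    have m2 : Continuous (fun q : ℝ × ℝ × ℝ => (q.1, max (q.2.2 - q.2.1) 0)) := by fun_prop
    exact ((c1.comp m1).sub (c1.comp m3)).add (c2.comp m2)
  · intro ξ τ s
    have e1 : mu (-ξ) = mu ξ := by unfold mu; ring
    have e2 : lam (-ξ) = lam ξ := by unfold lam; rw [e1]
    unfold kap2
    rw [kb_chi_neg, e1, e2]
    ring
  · intro i
    obtain ⟨C1, hC10, hC1⟩ := kb_1_bdd i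
    obtain ⟨C2, hC20, hC2⟩ := kb_1_diff i
    obtain ⟨M, hM0, hM⟩ := kb_2_lip hs.1 hs.2.2.1 T i
    refine ⟨2 * C1 + 2 * C2 + M * (1 + T) * Real.exp (9 * T / 4) + 1, by positivity,
      fun ξ τ hτ s hs' => ?_⟩
    rw [hder]
    have hr : |τ - s| ≤ T := by
      rw [abs_le]
      constructor <;> linarith [hτ.1, hτ.2, hs'.1, hs'.2]
    have hE : 0 < Real.exp (-(ξ ^ 2 * |τ - s| / 4)) := Real.exp_pos _
    have hm : |τ - s| ≤ τ + s := by
      rw [abs_le]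
      constructor <;> linarith [hτ.1, hs'.1]
    have hm2 : τ + s - |τ - s| ≤ 2 * s := by
      have := le_abs_self (τ - s)
      linarith
    have hξ2 : 0 ≤ ξ ^ 2 := sq_nonneg ξ
    have hs0 : 0 < s := hs'.1
    have hmin : 0 ≤ min 1 ((1 + ξ ^ 2) * s) := le_min zero_le_one (by positivity)
    -- the high part
    have H1 : |iteratedDeriv i (fun ξ => kb_1 ξ |τ - s|) ξ -
        iteratedDeriv i (fun ξ => kb_1 ξ (τ + s)) ξ| ≤
        (2 * C1 + 2 * C2) * (min 1 ((1 + ξ ^ 2) * s) * Real.exp (-(ξ ^ 2 * |τ - s| / 4))) := by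
      have a1 := hC1 ξ |τ - s| (abs_nonneg _)
      have a2 := hC1 ξ (τ + s) (by linarith [hτ.1])
      have a3 := hC2 ξ |τ - s| (τ + s) (abs_nonneg _) hm
      have a4 : Real.exp (-(ξ ^ 2 * (τ + s) / 4)) ≤ Real.exp (-(ξ ^ 2 * |τ - s| / 4)) := by
        apply Real.exp_le_exp.2
        have := mul_le_mul_of_nonneg_left hm hξ2
        linarith
      rcases min_cases 1 ((1 + ξ ^ 2) * s) with ⟨h, _⟩ | ⟨h, _⟩
      · rw [h, one_mul]
        have a5 : |iteratedDeriv i (fun ξ => kb_1 ξ |τ - s|) ξ -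
            iteratedDeriv i (fun ξ => kb_1 ξ (τ + s)) ξ| ≤ |iteratedDeriv i (fun ξ => kb_1 ξ |τ - s|) ξ| +
            |iteratedDeriv i (fun ξ => kb_1 ξ (τ + s)) ξ| := abs_sub _ _
        have a6 := mul_le_mul_of_nonneg_left a4 hC10
        have a7 : 0 ≤ C2 * Real.exp (-(ξ ^ 2 * |τ - s| / 4)) := by positivity
        linarith
      · rw [h]
        refine a3.trans ?_
        have a5 : C2 * ξ ^ 2 * (τ + s - |τ - s|) ≤ (2 * C1 + 2 * C2) * ((1 + ξ ^ 2) * s) := by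
          have b1 : C2 * ξ ^ 2 * (τ + s - |τ - s|) ≤ C2 * ξ ^ 2 * (2 * s) :=
            mul_le_mul_of_nonneg_left hm2 (by positivity)
          have b2 : 0 ≤ C1 * ((1 + ξ ^ 2) * s) := by positivity
          have b3 : 0 ≤ C2 * s := by positivity
          nlinarith
        calc _ ≤ (2 * C1 + 2 * C2) * ((1 + ξ ^ 2) * s) * Real.exp (-(ξ ^ 2 * |τ - s| / 4)) :=
              mul_le_mul_of_nonneg_right a5 hE.le
          _ = _ := by ring
    have H2 : |iteratedDeriv i (fun ξ => kb_2 sh ξ (max (s - τ) 0)) ξ| ≤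
        M * (1 + T) * Real.exp (9 * T / 4) *
          (min 1 ((1 + ξ ^ 2) * s) * Real.exp (-(ξ ^ 2 * |τ - s| / 4))) := by
      rcases le_or_gt |ξ| 3 with h | h
      · have h3 := hM ξ (max (s - τ) 0) h (le_max_right _ _) (by
          apply max_le _ hT.le
          linarith [hτ.1, hτ.2, hs'.1, hs'.2])
        have h4 : 1 ≤ Real.exp (9 * T / 4) * Real.exp (-(ξ ^ 2 * |τ - s| / 4)) := by
          rw [← Real.exp_add]
          apply Real.one_le_exp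
          have h5 : ξ ^ 2 ≤ 9 := by
            rw [← sq_abs]
            nlinarith [abs_nonneg ξ]
          have h6 : ξ ^ 2 * |τ - s| ≤ 9 * T := mul_le_mul h5 hr (abs_nonneg _) (by norm_num)
          linarith
        have h7 : max (s - τ) 0 ≤ s := max_le (by linarith [hτ.1]) hs0.le
        have h8 : s ≤ (1 + T) * min 1 ((1 + ξ ^ 2) * s) := by
          rcases min_cases 1 ((1 + ξ ^ 2) * s) with ⟨h, _⟩ | ⟨h, _⟩
          · rw [h]
            linarith [hs'.2]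
          · rw [h]
            have : 0 ≤ ξ ^ 2 * s := by positivity
            have : 0 ≤ T * ((1 + ξ ^ 2) * s) := by positivity
            nlinarith
        calc |iteratedDeriv i (fun ξ => kb_2 sh ξ (max (s - τ) 0)) ξ| ≤ M * max (s - τ) 0 := h3
          _ ≤ M * ((1 + T) * min 1 ((1 + ξ ^ 2) * s)) := by
              gcongr
              exact h7.trans h8
          _ = M * ((1 + T) * min 1 ((1 + ξ ^ 2) * s)) * 1 := by ring
          _ ≤ M * ((1 + T) * min 1 ((1 + ξ ^ 2) * s)) *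
              (Real.exp (9 * T / 4) * Real.exp (-(ξ ^ 2 * |τ - s| / 4))) := by gcongr
          _ = _ := by ring
      · rw [kb_zero (fun ξ => kb_2 sh ξ (max (s - τ) 0)) (fun x hx => by
          unfold kb_2
          rw [kb_chi_zero hx.le]
          ring) i ξ h, abs_zero]
        positivity
    have h3 : 0 ≤ min 1 ((1 + ξ ^ 2) * s) * Real.exp (-(ξ ^ 2 * |τ - s| / 4)) := by positivity
    calc _ ≤ |iteratedDeriv i (fun ξ => kb_1 ξ |τ - s|) ξ -
        iteratedDeriv i (fun ξ => kb_1 ξ (τ + s)) ξ| +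
        |iteratedDeriv i (fun ξ => kb_2 sh ξ (max (s - τ) 0)) ξ| := abs_add_le _ _
      _ ≤ _ := by linarith

end Pool.Agent.Q256.BC
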